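import Pool.Agent.Helper77.SO.St

/-! Module VO of project SO (MP_7a9ddc_co): every vertex is on an odd face. -/

set_option autoImplicit false

namespace Pool.Agent.Helper40.SO.VO

open Equiv Equiv.Perm Pool.Agent.Helper35.PM Pool.Agent.Helper77.HY Pool.Agent.Helper77.OF4
  Pool.Agent.Helper77.SO

theorem main : StVo := by
  intro V D _ M hC hex hF v
  obtain ⟨d0, hd0⟩ := hex
  by_contra hcon
  push Not at hcon
  have h2 : ∀ e, M.t e = v → M.φ (M.φ e) = e := by
    intro e he
    have h := (hF e).resolve_right (hcon e he)
    have h1 := Function.iterate_minimalPeriod (f := M.φ) (x := e)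
    rw [h] at h1
    exact h1
  have h3 : ∀ d, M.t (M.ι d) = v → ¬ OddD M d := by
    intro d hd ho
    apply hcon (M.φ d) (by rw [t_φ, hd])
    unfold OddD at ho ⊢
    have hp : d ∈ Function.periodicPts M.φ := by
      rw [← Function.minimalPeriod_pos_iff_mem_periodicPts]
      exact ho.pos
    rw [Function.minimalPeriod_apply hp]
    exact ho
  have hstep : ∀ e, M.t (M.ι e) = v → M.t (M.ι (M.r e)) = v := by
    intro e he
    have h4 := h2 (M.ι e) he
    have h5 : M.φ (M.ι e) = M.r e := by rw [PMap.φ_apply, M.inv]
    rw [h5, PMap.φ_apply] at h4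
    rw [← M.t_r (M.ι (M.r e)), h4, he]
  have hT : ∀ w, Relation.ReflTransGen (fun a b => ∃ d, M.t d = a ∧ M.t (M.ι d) = b) v w →
      w = v ∨ ∀ d, M.t d = w → M.t (M.ι d) = v := by
    intro w hw
    induction hw with
    | refl => exact Or.inl rfl
    | tail hvb hbc ih =>
      rename_i b c
      obtain ⟨d, hd1, hd2⟩ := hbc
      rcases ih with ih | ih
      · right
        intro d' hd'
        have hs := M.trans (M.ι d) d' (by rw [hd2, hd'])
        obtain ⟨k, hk⟩ := hs.exists_nat_pow_eq
        have key : ∀ k : ℕ, M.t (M.ι ((M.r ^ k) (M.ι d))) = v := by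
          intro k
          induction k with
          | zero => simp [M.inv d, hd1, ih]
          | succ k ihk =>
            rw [pow_succ', Perm.mul_apply]
            exact hstep _ ihk
        rw [← hk]
        exact key k
      · left
        rw [← hd2]
        exact ih d hd1
  rcases hT (M.t d0) (hC v (M.t d0)) with h | h
  · exact hcon d0 h hd0
  · exact h3 d0 (h d0 rfl) hd0

end Pool.Agent.Helper40.SO.VO
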